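import Pool.Agent.DualGraph.PartPeel

set_option autoImplicit false

open DualGraph in
/-- Barycentric subdivisions, and partial barycentric subdivisions in which at least the facets and
the ridges are subdivided, are determined by their dual graphs among orientable pseudomanifolds
with strongly connected vertex stars. -/
theorem Pool.Agent.Results.MP_c7cc32_co.BarycentricSubdivision.result
    {V W : Type*} [DecidableEq V] [DecidableEq W] (d j : ℕ) (hj : 1 ≤ j) (hjd : j < d)
    (K : Set (Finset W)) (hK : IsNormalPM d K) (hfin : K.Finite)
    (L : Set (Finset V)) (hL : IsPM d L) (ho : Orientable d L)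
    (Φ : Finset (Finset W) → Finset V) (hΦ : DualIso d (sdAbove d j K) L Φ) :
    ∃ f : Finset W → V, Set.InjOn f {s | ∃ S ∈ sdAbove d j K, s ∈ S} ∧
      ∀ S ∈ sdAbove d j K, Φ S = S.image f :=
  exists_map_of_peelable (sdAbove_isPM hK hj hjd.le)
    (finite_sdAbove hjd.le hK.card_facet hfin) (sdAbove_peelable hK hj hjd) hL ho hΦ
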