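import Pool.Agent.Helper90.ROT.Oriented

set_option autoImplicit false

open DualGraph Rot in
/-- An isomorphism of the dual graphs of two three-dimensional homology spheres that preserves the
orientation (more generally, that is coherent on the edge stars inside the star of some vertex of
every triangle) is induced by an isomorphism of complexes. -/
theorem Pool.Agent.Results.MP_c7cc32_co.OrientedDualGraph.result
    {V W : Type*} [DecidableEq V] [DecidableEq W] (K : Finset (Finset V)) (L : Finset (Finset W))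
    (hK : IsNormalPM 3 (K : Set (Finset V))) (hL : IsNormalPM 3 (L : Set (Finset W)))
    (hH1 : ∀ v, LinkH1Zero (K : Set (Finset V)) v) (hH2 : H2Zero L)
    (oK : (Fin 4 → V) → ℤ) (oL : (Fin 4 → W) → ℤ)
    (hoK : IsOrientation 3 (K : Set (Finset V)) oK) (hoL : IsOrientation 3 (L : Set (Finset W)) oL)
    (Φ : Finset V → Finset W)
    (hΦ : DualIso 3 (K : Set (Finset V)) (L : Set (Finset W)) Φ)
    (hc : ∀ A ∈ K, ∀ T : Finset V, T ⊆ A → T.card = 3 → ∃ v ∈ T, ∀ C : Finset W, C.card = 2 →
      (∀ B ∈ K, C ⊆ Φ B → v ∈ B) →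
      ∃ s, ∀ B ∈ K, C ⊆ Φ B → HasSign (K : Set (Finset V)) Φ oK oL B s) :
    ∃ f : V → W, Set.InjOn f {x | ∃ A ∈ K, x ∈ A} ∧ ∀ A ∈ K, Φ A = A.image f :=
  Rot.main hK hL hH1 hH2 hoK hoL hΦ hc
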