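import Pool.Agent.DualGraph.Peel

set_option autoImplicit false

open DualGraph in
/-- A finite peelable pseudomanifold with strongly connected vertex stars is determined by its
dual graph among orientable pseudomanifolds with strongly connected vertex stars. -/
theorem Pool.Agent.Results.MP_c7cc32_co.PeelingCriterion.result
    {V W : Type*} [DecidableEq V] [DecidableEq W] (d : ℕ)
    (Δ : Set (Finset V)) (hΔ : IsPM d Δ) (hfin : Δ.Finite) (hpeel : Peelable d Δ)
    (Δ' : Set (Finset W)) (hΔ' : IsPM d Δ') (ho : Orientable d Δ')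
    (Φ : Finset V → Finset W) (hΦ : DualIso d Δ Δ' Φ) :
    ∃ f : V → W, Set.InjOn f {x | ∃ A ∈ Δ, x ∈ A} ∧ ∀ A ∈ Δ, Φ A = A.image f :=
  exists_map_of_peelable hΔ hfin hpeel hΔ' ho hΦ
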